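import Pool.Agent.H83.Sh4

set_option autoImplicit false

namespace Pool.Agent.Results.MP_1f1ec9_gt.NotSigma

/-- A Borel (hence analytic) subspace of Cantor space times the Hilbert cube that is not a
countable union of homogeneous subspaces. -/
theorem result : ∃ X : Set ((ℕ → Bool) × (ℕ → unitInterval)),
    MeasureTheory.AnalyticSet X ∧ @MeasurableSet _ (borel _) X ∧
      ¬ ∃ Y : ℕ → Set ((ℕ → Bool) × (ℕ → unitInterval)), ⋃ n, Y n = X ∧
        ∀ n, ∀ x y : Y n, ∃ h : Y n ≃ₜ Y n, h x = y := by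
  obtain ⟨X, mX, nX, hX⟩ := Pool.Agent.H83.Sh4.main
  have : PolishSpace ((ℕ → Bool) × (ℕ → unitInterval)) := ⟨⟩
  refine ⟨X, mX.analyticSet, ?_, fun ⟨Y, hY, hom⟩ => nX ?_⟩
  · rwa [← BorelSpace.measurable_eq]
  · rw [← hY]
    exact Pool.Agent.H83.Sh4.cd_iUnion fun n => hX _ (hY ▸ Set.subset_iUnion Y n) (hom n)

end Pool.Agent.Results.MP_1f1ec9_gt.NotSigma
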